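import Pool.Agent.Helper23.MV.StL

/-!
# MV SEL: Selberg's optimal weights
-/

set_option autoImplicit false

namespace Pool.Agent.Helper7.MV

open Finset ArithmeticFunction
open Pool.Agent.Helper23.MV

private theorem gD_mul_SEL (f : ℕ → ℝ) {a b : ℕ} (h : Nat.Coprime a b) :
    gD f (a * b) = gD f a * gD f b := by
  unfold gD
  rw [h.primeFactors_mul, Finset.prod_union h.disjoint_primeFactors]

private theorem gD_pos_SEL {f : ℕ → ℝ} (hf : ∀ p : ℕ, p.Prime → 0 < f p) (d : ℕ) :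
    0 < gD f d :=
  Finset.prod_pos fun p hp => hf p (Nat.prime_of_mem_primeFactors hp)

private theorem gD_one_SEL (f : ℕ → ℝ) : gD f 1 = 1 := by simp [gD]

private theorem sum_div_SEL (f : ℕ → ℝ) {n : ℕ} (hn : Squarefree n) :
    ∑ k ∈ n.divisors, gD f k = ∏ p ∈ n.primeFactors, (1 + f p) := by
  have h := (IsMultiplicative.prodPrimeFactors (R := ℝ) f).prodPrimeFactors_one_add_of_squarefree hn
  have h1 : ∑ k ∈ n.divisors, gD f k = ∑ k ∈ n.divisors, (prodPrimeFactors f) k := by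
    refine Finset.sum_congr rfl fun k hk => ?_
    rw [prodPrimeFactors_apply (Nat.pos_of_mem_divisors hk).ne']
    rfl
  rw [h1, ← h]
  refine Finset.prod_congr rfl fun p hp => ?_
  have hpp := Nat.prime_of_mem_primeFactors hp
  rw [prodPrimeFactors_apply hpp.ne_zero, hpp.primeFactors, Finset.prod_singleton]

/-- `1 / g(d) = ∑_{k ∣ d} 1 / h(k)`. -/
private theorem inv_SEL {g : ℕ → ℝ} (hg : ∀ p : ℕ, p.Prime → 0 < g p ∧ g p < 1) {n : ℕ}
    (hn : Squarefree n) :
    (gD g n)⁻¹ = ∑ k ∈ n.divisors, (gD (fun p => g p / (1 - g p)) k)⁻¹ := by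
  have h1 : ∀ k : ℕ, (gD (fun p => g p / (1 - g p)) k)⁻¹ = gD (fun p => (g p / (1 - g p))⁻¹) k := by
    intro k
    unfold gD
    rw [Finset.prod_inv_distrib]
  rw [Finset.sum_congr rfl fun k _ => h1 k, sum_div_SEL _ hn]
  unfold gD
  rw [← Finset.prod_inv_distrib]
  refine Finset.prod_congr rfl fun p hp => ?_
  obtain ⟨h2, h3⟩ := hg p (Nat.prime_of_mem_primeFactors hp)
  have h4 : 1 - g p ≠ 0 := by linarith
  field_simp
  ring

/-- `h(d) / g(d) = ∑_{k ∣ d} h(k)`. -/
private theorem rat_SEL {g : ℕ → ℝ} (hg : ∀ p : ℕ, p.Prime → 0 < g p ∧ g p < 1) {n : ℕ}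
    (hn : Squarefree n) :
    gD (fun p => g p / (1 - g p)) n / gD g n =
      ∑ k ∈ n.divisors, gD (fun p => g p / (1 - g p)) k := by
  rw [sum_div_SEL _ hn]
  unfold gD
  rw [← Finset.prod_div_distrib]
  refine Finset.prod_congr rfl fun p hp => ?_
  obtain ⟨h2, h3⟩ := hg p (Nat.prime_of_mem_primeFactors hp)
  have h4 : 1 - g p ≠ 0 := by linarith
  field_simp
  ring

private theorem lcm_SEL {a b : ℕ} (ha : a ≠ 0) (hb : b ≠ 0) :
    (Nat.lcm a b).primeFactors = a.primeFactors ∪ b.primeFactors := by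
  ext p
  rw [Finset.mem_union, Nat.mem_primeFactors, Nat.mem_primeFactors, Nat.mem_primeFactors]
  constructor
  · rintro ⟨hp, h1, _⟩
    rcases hp.dvd_mul.1 (h1.trans (Nat.lcm_dvd_mul a b)) with h2 | h2
    · exact Or.inl ⟨hp, h2, ha⟩
    · exact Or.inr ⟨hp, h2, hb⟩
  · rintro (⟨hp, h1, _⟩ | ⟨hp, h1, _⟩)
    · exact ⟨hp, h1.trans (Nat.dvd_lcm_left a b), Nat.lcm_ne_zero ha hb⟩
    · exact ⟨hp, h1.trans (Nat.dvd_lcm_right a b), Nat.lcm_ne_zero ha hb⟩

private theorem mu_SEL {k n : ℕ} (hn : Squarefree n) (hk : k ∣ n) :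
    ∑ d ∈ n.divisors.filter (fun d => k ∣ d), (moebius d : ℝ) =
      if n = k then (moebius k : ℝ) else 0 := by
  obtain ⟨m, rfl⟩ := hk
  have hk0 : k ≠ 0 := fun h => by simp [h] at hn
  have hm0 : m ≠ 0 := fun h => by simp [h] at hn
  have hcop : Nat.Coprime k m := Nat.coprime_of_squarefree_mul hn
  have h1 : ∑ d ∈ (k * m).divisors.filter (fun d => k ∣ d), (moebius d : ℝ) =
      ∑ e ∈ m.divisors, (moebius k : ℝ) * (moebius e : ℝ) := by
    symm
    refine Finset.sum_nbij' (fun e => k * e) (fun d => d / k) ?_ ?_ ?_ ?_ ?_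
    · intro e he
      rw [Nat.mem_divisors] at he
      simp only [Finset.mem_filter, Nat.mem_divisors]
      exact ⟨⟨mul_dvd_mul_left k he.1, mul_ne_zero hk0 hm0⟩, dvd_mul_right k e⟩
    · intro d hd
      simp only [Finset.mem_filter, Nat.mem_divisors] at hd
      obtain ⟨⟨h2, h3⟩, e, rfl⟩ := hd
      rw [Nat.mul_div_cancel_left e (Nat.pos_of_ne_zero hk0), Nat.mem_divisors]
      exact ⟨Nat.dvd_of_mul_dvd_mul_left (Nat.pos_of_ne_zero hk0) h2, hm0⟩
    · intro e _
      exact Nat.mul_div_cancel_left e (Nat.pos_of_ne_zero hk0)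
    · intro d hd
      simp only [Finset.mem_filter, Nat.mem_divisors] at hd
      exact Nat.mul_div_cancel' hd.2
    · intro e he
      rw [Nat.mem_divisors] at he
      have h2 : Nat.Coprime k e := Nat.Coprime.coprime_dvd_right he.1 hcop
      rw [isMultiplicative_moebius.map_mul_of_coprime h2]
      push_cast
      ring
  rw [h1, ← Finset.mul_sum]
  have h2 : (∑ e ∈ m.divisors, (moebius e : ℤ)) = if m = 1 then 1 else 0 := by
    rw [← coe_mul_zeta_apply, moebius_mul_coe_zeta, one_apply]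
  have h3 : (∑ e ∈ m.divisors, (moebius e : ℝ)) = if m = 1 then 1 else 0 := by
    have := congrArg (fun x : ℤ => (x : ℝ)) h2
    push_cast at this
    rw [this]
  rw [h3]
  by_cases hm : m = 1
  · subst hm
    simp
  · rw [if_neg hm, if_neg, mul_zero]
    intro h4
    exact hm (Nat.eq_of_mul_eq_mul_left (Nat.pos_of_ne_zero hk0) (by rw [h4, mul_one]))

theorem hSel : StSel := by
  intro g z hz hg
  classical
  obtain ⟨h, hh⟩ : ∃ h : ℕ → ℝ, h = fun p => g p / (1 - g p) := ⟨_, rfl⟩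
  have hhp : ∀ p : ℕ, p.Prime → 0 < h p := by
    intro p hp
    rw [hh]
    obtain ⟨h2, h3⟩ := hg p hp
    exact div_pos h2 (by linarith)
  have hgp : ∀ p : ℕ, p.Prime → 0 < g p := fun p hp => (hg p hp).1
  have hinv : ∀ {n : ℕ}, Squarefree n → (gD g n)⁻¹ = ∑ k ∈ n.divisors, (gD h k)⁻¹ := by
    intro n hn
    rw [hh]
    exact inv_SEL hg hn
  have hrat : ∀ {n : ℕ}, Squarefree n → gD h n / gD g n = ∑ k ∈ n.divisors, gD h k := by
    intro n hn
    rw [hh]
    exact rat_SEL hg hn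
  obtain ⟨S, hS⟩ : ∃ S : Finset ℕ, S = (Icc 1 z).filter Squarefree := ⟨_, rfl⟩
  have memS : ∀ d, d ∈ S ↔ (1 ≤ d ∧ d ≤ z) ∧ Squarefree d := by
    intro d
    rw [hS, Finset.mem_filter, Finset.mem_Icc]
  obtain ⟨T, hT⟩ : ∃ T : ℕ → Finset ℕ,
      T = fun d => (Icc 1 (z / d)).filter (fun m => Squarefree m ∧ Nat.Coprime d m) := ⟨_, rfl⟩
  have memT : ∀ d m, m ∈ T d ↔ (1 ≤ m ∧ m ≤ z / d) ∧ Squarefree m ∧ Nat.Coprime d m := by
    intro d m
    rw [hT]
    simp only [Finset.mem_filter, Finset.mem_Icc]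
  have h1S : 1 ∈ S := by
    rw [memS]
    exact ⟨⟨le_refl 1, hz⟩, squarefree_one⟩
  obtain ⟨G, hG⟩ : ∃ G : ℝ, G = ∑ d ∈ S, gD h d := ⟨_, rfl⟩
  have hGpos : 0 < G := by
    rw [hG]
    exact Finset.sum_pos (fun d _ => gD_pos_SEL hhp d) ⟨1, h1S⟩
  obtain ⟨θ, hθ⟩ : ∃ θ : ℕ → ℝ, θ = fun d => if d ∈ S then
      (moebius d : ℝ) * (gD h d / gD g d) * (∑ m ∈ T d, gD h m) / G else 0 := ⟨_, rfl⟩
  have θS : ∀ d ∈ S, θ d = (moebius d : ℝ) * (gD h d / gD g d) * (∑ m ∈ T d, gD h m) / G := by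
    intro d hd
    rw [hθ]
    exact if_pos hd
  have θn : ∀ d, d ∉ S → θ d = 0 := by
    intro d hd
    rw [hθ]
    exact if_neg hd
  refine ⟨θ, ?_, ?_, ?_, ?_, ?_⟩
  · rw [θS 1 h1S]
    have h1 : T 1 = S := by
      ext m
      rw [memT, memS, Nat.div_one]
      simp
    rw [h1, ← hG, gD_one_SEL, gD_one_SEL, moebius_apply_one, Int.cast_one, div_one, one_mul,
      one_mul, div_self hGpos.ne']
  · intro d
    by_cases hd : d ∈ S
    · rw [θS d hd]
      have hd' := (memS d).1 hd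
      have hsq := hd'.2
      have key : gD h d / gD g d * ∑ m ∈ T d, gD h m ≤ G := by
        rw [hrat hsq, Finset.sum_mul_sum, ← Finset.sum_product', hG]
        have hinj : Set.InjOn (fun x : ℕ × ℕ => x.1 * x.2)
            ((d.divisors ×ˢ T d : Finset (ℕ × ℕ)) : Set (ℕ × ℕ)) := by
          rintro ⟨a, b⟩ hab ⟨a', b'⟩ hab' heq
          simp only [Finset.coe_product, Set.mem_prod, Finset.mem_coe, Nat.mem_divisors,
            memT] at hab hab' heq
          have e1 : a ∣ a' := by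
            have : a ∣ a' * b' := heq ▸ dvd_mul_right a b
            exact (Nat.Coprime.coprime_dvd_left hab.1.1 hab'.2.2.2).dvd_of_dvd_mul_right this
          have e2 : a' ∣ a := by
            have : a' ∣ a * b := heq.symm ▸ dvd_mul_right a' b'
            exact (Nat.Coprime.coprime_dvd_left hab'.1.1 hab.2.2.2).dvd_of_dvd_mul_right this
          have e3 : a = a' := Nat.dvd_antisymm e1 e2
          subst e3
          have ha : 0 < a := Nat.pos_of_ne_zero fun h0 => by
            rw [h0] at hab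
            exact hab.1.2 (Nat.eq_zero_of_zero_dvd hab.1.1)
          have e4 : b = b' := Nat.eq_of_mul_eq_mul_left ha heq
          rw [e4]
        have h2 : ∑ x ∈ d.divisors ×ˢ T d, gD h x.1 * gD h x.2 =
            ∑ x ∈ d.divisors ×ˢ T d, gD h (x.1 * x.2) := by
          refine Finset.sum_congr rfl fun x hx => ?_
          rw [Finset.mem_product, Nat.mem_divisors, memT] at hx
          rw [gD_mul_SEL h (Nat.Coprime.coprime_dvd_left hx.1.1 hx.2.2.2)]
        rw [h2, ← Finset.sum_image (f := fun n => gD h n) hinj]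
        refine Finset.sum_le_sum_of_subset_of_nonneg ?_ fun n _ _ => (gD_pos_SEL hhp n).le
        intro n hn
        rw [Finset.mem_image] at hn
        obtain ⟨⟨a, b⟩, hab, rfl⟩ := hn
        rw [Finset.mem_product, Nat.mem_divisors, memT] at hab
        rw [memS]
        have ha : 1 ≤ a := Nat.pos_of_ne_zero fun h0 => by
          rw [h0] at hab
          exact hab.1.2 (Nat.eq_zero_of_zero_dvd hab.1.1)
        refine ⟨⟨Nat.mul_pos ha hab.2.1.1, ?_⟩, ?_⟩
        · calc a * b ≤ d * (z / d) :=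
                Nat.mul_le_mul (Nat.le_of_dvd hd'.1.1 hab.1.1) hab.2.1.2
            _ ≤ z := Nat.mul_div_le z d
        · exact (Nat.squarefree_mul (Nat.Coprime.coprime_dvd_left hab.1.1 hab.2.2.2)).2
            ⟨hsq.squarefree_of_dvd hab.1.1, hab.2.2.1⟩
      have hpos : 0 ≤ gD h d / gD g d * ∑ m ∈ T d, gD h m :=
        mul_nonneg (div_pos (gD_pos_SEL hhp d) (gD_pos_SEL hgp d)).le
          (Finset.sum_nonneg fun m _ => (gD_pos_SEL hhp m).le)
      have hmu : |(moebius d : ℝ)| ≤ 1 := by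
        have := abs_moebius_le_one (n := d)
        exact_mod_cast this
      rw [abs_div, abs_of_pos hGpos, div_le_one hGpos, mul_assoc, abs_mul, abs_of_nonneg hpos]
      calc |(moebius d : ℝ)| * (gD h d / gD g d * ∑ m ∈ T d, gD h m)
          ≤ 1 * (gD h d / gD g d * ∑ m ∈ T d, gD h m) := mul_le_mul_of_nonneg_right hmu hpos
        _ ≤ G := by rw [one_mul]; exact key
    · rw [θn d hd]
      simp
  · intro d hd
    refine θn d fun h0 => ?_
    have := ((memS d).1 h0).1.2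
    omega
  · intro d hd
    exact θn d fun h0 => hd ((memS d).1 h0).2
  · have hsub : S ⊆ Icc 1 z := by
      rw [hS]
      exact Finset.filter_subset _ _
    have e1 : ∑ d₁ ∈ Icc 1 z, ∑ d₂ ∈ Icc 1 z, θ d₁ * θ d₂ * gD g (Nat.lcm d₁ d₂) =
        ∑ d₁ ∈ S, ∑ d₂ ∈ S, θ d₁ * θ d₂ * gD g (Nat.lcm d₁ d₂) := by
      rw [← Finset.sum_subset hsub (f := fun d₁ => ∑ d₂ ∈ Icc 1 z,
        θ d₁ * θ d₂ * gD g (Nat.lcm d₁ d₂))]
      · refine Finset.sum_congr rfl fun d₁ _ => ?_
        rw [← Finset.sum_subset hsub]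
        intro d₂ _ h2
        rw [θn d₂ h2]
        ring
      · intro d₁ _ h1
        refine Finset.sum_eq_zero fun d₂ _ => ?_
        rw [θn d₁ h1]
        ring
    have e2 : ∀ d₁ ∈ S, ∀ d₂ ∈ S, θ d₁ * θ d₂ * gD g (Nat.lcm d₁ d₂) =
        ∑ k ∈ S, (if k ∣ d₁ then θ d₁ * gD g d₁ else 0) *
          (if k ∣ d₂ then θ d₂ * gD g d₂ else 0) * (gD h k)⁻¹ := by
      intro d₁ h1 d₂ h2
      have h1' := (memS d₁).1 h1
      have h2' := (memS d₂).1 h2
      have hgs : Squarefree (Nat.gcd d₁ d₂) := h1'.2.squarefree_of_dvd (Nat.gcd_dvd_left _ _)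
      have h3 : gD g (Nat.lcm d₁ d₂) * gD g (Nat.gcd d₁ d₂) = gD g d₁ * gD g d₂ := by
        unfold gD
        rw [lcm_SEL (by omega) (by omega), Nat.primeFactors_gcd (by omega) (by omega)]
        exact Finset.prod_union_inter
      have h4 : gD g (Nat.lcm d₁ d₂) =
          gD g d₁ * gD g d₂ * ∑ k ∈ (Nat.gcd d₁ d₂).divisors, (gD h k)⁻¹ := by
        rw [← hinv hgs, ← h3]
        have := (gD_pos_SEL hgp (Nat.gcd d₁ d₂)).ne'
        field_simp
      have h5 : (Nat.gcd d₁ d₂).divisors = S.filter (fun k => k ∣ d₁ ∧ k ∣ d₂) := by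
        ext k
        rw [Nat.mem_divisors, Finset.mem_filter, memS, Nat.dvd_gcd_iff]
        constructor
        · rintro ⟨⟨h6, h7⟩, h8⟩
          have h9 : 0 < k := Nat.pos_of_dvd_of_pos h6 (by omega)
          exact ⟨⟨⟨h9, (Nat.le_of_dvd (by omega) h6).trans h1'.1.2⟩,
            h1'.2.squarefree_of_dvd h6⟩, h6, h7⟩
        · rintro ⟨_, h6, h7⟩
          exact ⟨⟨h6, h7⟩, (Nat.gcd_pos_of_pos_left _ (by omega)).ne'⟩
      rw [h4, h5, Finset.sum_filter, Finset.mul_sum, Finset.mul_sum]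
      refine Finset.sum_congr rfl fun k _ => ?_
      by_cases h6 : k ∣ d₁
      · by_cases h7 : k ∣ d₂
        · rw [if_pos ⟨h6, h7⟩, if_pos h6, if_pos h7]
          ring
        · rw [if_neg (fun h8 => h7 h8.2), if_neg h7]
          ring
      · rw [if_neg (fun h8 => h6 h8.1), if_neg h6]
        ring
    have e3 : ∀ k ∈ S, ∑ d ∈ S, (if k ∣ d then θ d * gD g d else 0) =
        (moebius k : ℝ) * gD h k / G := by
      intro k hk
      have hk' := (memS k).1 hk
      have f1 : ∑ d ∈ S, (if k ∣ d then θ d * gD g d else 0) =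
          (∑ d ∈ S.filter (fun d => k ∣ d), ∑ m ∈ T d, (moebius d : ℝ) * gD h (d * m)) / G := by
        rw [← Finset.sum_filter, Finset.sum_div]
        refine Finset.sum_congr rfl fun d hd => ?_
        rw [Finset.mem_filter] at hd
        rw [θS d hd.1]
        have h1 : ∑ m ∈ T d, (moebius d : ℝ) * gD h (d * m) =
            (moebius d : ℝ) * gD h d * ∑ m ∈ T d, gD h m := by
          rw [Finset.mul_sum]
          refine Finset.sum_congr rfl fun m hm => ?_
          rw [gD_mul_SEL h ((memT d m).1 hm).2.2]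
          ring
        rw [h1]
        have := (gD_pos_SEL hgp d).ne'
        field_simp
      have f2 : ∑ d ∈ S.filter (fun d => k ∣ d), ∑ m ∈ T d, (moebius d : ℝ) * gD h (d * m) =
          ∑ n ∈ S.filter (fun n => k ∣ n), ∑ d ∈ n.divisors.filter (fun d => k ∣ d),
            (moebius d : ℝ) * gD h n := by
        rw [Finset.sum_sigma', Finset.sum_sigma']
        refine Finset.sum_nbij' (fun x => ⟨x.1 * x.2, x.1⟩) (fun x => ⟨x.2, x.1 / x.2⟩)
          ?_ ?_ ?_ ?_ ?_
        · rintro ⟨d, m⟩ hx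
          simp only [Finset.mem_sigma, Finset.mem_filter, memS, memT] at hx
          simp only [Finset.mem_sigma, Finset.mem_filter, memS, Nat.mem_divisors]
          obtain ⟨⟨⟨⟨h1, h2⟩, h3⟩, h4⟩, ⟨h5, h6⟩, h7, h8⟩ := hx
          refine ⟨⟨⟨⟨Nat.mul_pos h1 h5, ?_⟩, (Nat.squarefree_mul h8).2 ⟨h3, h7⟩⟩,
            h4.mul_right m⟩, ⟨dvd_mul_right d m, (Nat.mul_pos h1 h5).ne'⟩, h4⟩
          calc d * m ≤ d * (z / d) := Nat.mul_le_mul_left d h6
            _ ≤ z := Nat.mul_div_le z d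
        · rintro ⟨n, d⟩ hx
          simp only [Finset.mem_sigma, Finset.mem_filter, memS, Nat.mem_divisors] at hx
          simp only [Finset.mem_sigma, Finset.mem_filter, memS, memT]
          obtain ⟨⟨⟨⟨h1, h2⟩, h3⟩, h4⟩, ⟨⟨m, rfl⟩, h6⟩, h7⟩ := hx
          have hd0 : 0 < d := Nat.pos_of_ne_zero fun h0 => h6 (by rw [h0, zero_mul])
          have hm0 : 0 < m := Nat.pos_of_ne_zero fun h0 => h6 (by rw [h0, mul_zero])
          rw [Nat.mul_div_cancel_left m hd0]
          refine ⟨⟨⟨⟨hd0, (Nat.le_mul_of_pos_right d hm0).trans h2⟩,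
            h3.squarefree_of_dvd (dvd_mul_right d m)⟩, h7⟩, ⟨hm0, ?_⟩,
            h3.squarefree_of_dvd (dvd_mul_left m d), Nat.coprime_of_squarefree_mul h3⟩
          rw [Nat.le_div_iff_mul_le hd0, mul_comm]
          exact h2
        · rintro ⟨d, m⟩ hx
          simp only [Finset.mem_sigma, Finset.mem_filter, memS, memT] at hx
          simp only [Nat.mul_div_cancel_left m hx.1.1.1.1]
        · rintro ⟨n, d⟩ hx
          simp only [Finset.mem_sigma, Finset.mem_filter, memS, Nat.mem_divisors] at hx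
          simp only [Nat.mul_div_cancel' hx.2.1.1]
        · rintro ⟨d, m⟩ _
          rfl
      have f3 : ∑ n ∈ S.filter (fun n => k ∣ n), ∑ d ∈ n.divisors.filter (fun d => k ∣ d),
            (moebius d : ℝ) * gD h n = (moebius k : ℝ) * gD h k := by
        have h1 : ∀ n ∈ S.filter (fun n => k ∣ n),
            ∑ d ∈ n.divisors.filter (fun d => k ∣ d), (moebius d : ℝ) * gD h n =
              if n = k then (moebius k : ℝ) * gD h k else 0 := by
          intro n hn
          rw [Finset.mem_filter, memS] at hn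
          rw [← Finset.sum_mul, mu_SEL hn.1.2 hn.2]
          by_cases h2 : n = k
          · rw [if_pos h2, if_pos h2, h2]
          · rw [if_neg h2, if_neg h2, zero_mul]
        rw [Finset.sum_congr rfl h1, Finset.sum_ite_eq' , if_pos]
        rw [Finset.mem_filter]
        exact ⟨hk, dvd_rfl⟩
      rw [f1, f2, f3]
    rw [e1, Finset.sum_congr rfl fun d₁ h1 => Finset.sum_congr rfl fun d₂ h2 => e2 d₁ h1 d₂ h2]
    have e4 : ∑ d₁ ∈ S, ∑ d₂ ∈ S, ∑ k ∈ S, (if k ∣ d₁ then θ d₁ * gD g d₁ else 0) *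
          (if k ∣ d₂ then θ d₂ * gD g d₂ else 0) * (gD h k)⁻¹ =
        ∑ k ∈ S, (∑ d ∈ S, (if k ∣ d then θ d * gD g d else 0)) *
          (∑ d ∈ S, (if k ∣ d then θ d * gD g d else 0)) * (gD h k)⁻¹ := by
      rw [Finset.sum_congr rfl fun d₁ _ => Finset.sum_comm, Finset.sum_comm]
      refine Finset.sum_congr rfl fun k _ => ?_
      rw [Finset.sum_mul_sum, Finset.sum_mul]
      refine Finset.sum_congr rfl fun d₁ _ => ?_
      rw [Finset.sum_mul]
    rw [e4, ← hh, ← hS, ← hG]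
    have e5 : ∀ k ∈ S, (∑ d ∈ S, (if k ∣ d then θ d * gD g d else 0)) *
          (∑ d ∈ S, (if k ∣ d then θ d * gD g d else 0)) * (gD h k)⁻¹ = gD h k / G ^ 2 := by
      intro k hk
      rw [e3 k hk]
      have h1 : ((moebius k : ℝ)) ^ 2 = 1 := by
        have := moebius_sq_eq_one_of_squarefree ((memS k).1 hk).2
        exact_mod_cast this
      have h2 := (gD_pos_SEL hhp k).ne'
      have h3 := hGpos.ne'
      field_simp
      rw [h1]
    rw [Finset.sum_congr rfl e5, ← Finset.sum_div, ← hG]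
    have h3 := hGpos.ne'
    field_simp

end Pool.Agent.Helper7.MV
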